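import Pool.Agent.H424R2.PPAD.Main

/-!
# Finding a panchromatic vertex is `PPAD`-hard for square 0-1 matrices with every colour used twice
-/

namespace Pool.Agent.Results.MP_919317_lc.PanchromaticPPADHard

open Pool.Agent.H424R2.PPAD

/-- Finding a panchromatic vertex of `P = {x : Ax ≤ 1, x ≤ 1}`, for a square 0-1 matrix `A` and a
valid colouring of the facets of `P` with every colour used exactly twice, is `PPAD`-hard:
End-of-Line, and hence every search problem reducible to it, reduces to this problem in polynomial
time. -/
theorem result : PPADHard Panch.problem := panch_ppadHard

end Pool.Agent.Results.MP_919317_lc.PanchromaticPPADHard
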